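import Mathlib

set_option autoImplicit false

/-!
# Primes at which a number field is unramified
-/

namespace Pool.Agent.H58P

open NumberField UniqueFactorizationMonoid

/-- an algebraic closure of the rational numbers -/
abbrev Qb : Type := AlgebraicClosure ℚ

lemma squarefree_span {K : Type*} [Field K] [NumberField K] (a : ℕ) (ha : a.Prime)
    (h : ¬ (a : ℤ) ∣ discr K) : Squarefree (Ideal.span {(a : 𝓞 K)}) := by
  classical
  have ha' : Prime (a : ℤ) := Nat.prime_iff_prime_int.mp ha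
  have hun := (not_dvd_discr_iff_forall_mem K (𝓞 K) ha').mp h
  have ha0 : (a : 𝓞 K) ≠ 0 := by exact_mod_cast ha.ne_zero
  have hbot : Ideal.span {(a : 𝓞 K)} ≠ 0 := by
    rwa [Ne, Ideal.zero_eq_bot, Ideal.span_singleton_eq_bot]
  have hmap : Ideal.map (algebraMap ℤ (𝓞 K)) (Ideal.span {(a : ℤ)}) = Ideal.span {(a : 𝓞 K)} := by
    rw [Ideal.map_span, Set.image_singleton]
    simp
  rw [squarefree_iff_nodup_normalizedFactors hbot, Multiset.nodup_iff_count_le_one]
  intro P
  by_cases hP : P ∈ normalizedFactors (Ideal.span {(a : 𝓞 K)})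
  · have hPprime : Prime P := prime_of_normalized_factor P hP
    have hPP : P.IsPrime := Ideal.isPrime_of_prime hPprime
    have hP0 : P ≠ ⊥ := by rw [← Ideal.zero_eq_bot]; exact hPprime.ne_zero
    have hle : Ideal.span {(a : 𝓞 K)} ≤ P := Ideal.le_of_dvd (dvd_of_mem_normalizedFactors hP)
    have hamem : ((a : ℤ) : 𝓞 K) ∈ P := by
      rw [Int.cast_natCast]
      exact hle (Ideal.mem_span_singleton_self _)
    have hunr := hun P hPP hamem
    have h1 : Ideal.ramificationIdx P ℤ = 1 := P.ramificationIdx_eq_one ℤ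
    have hlo : P.LiesOver (Ideal.span {(a : ℤ)}) :=
      (Ideal.liesOver_span_iff hPP.ne_top ha').mpr hamem
    have hbZ : (Ideal.span {(a : ℤ)} : Ideal ℤ) ≠ ⊥ := by
      rw [Ne, Ideal.span_singleton_eq_bot]; exact ha'.ne_zero
    have h2 : (Ideal.span {(a : ℤ)} : Ideal ℤ).ramificationIdx' P = P.ramificationIdx ℤ :=
      Ideal.ramificationIdx'_eq_ramificationIdx _ _ hbZ
    have h3 := Ideal.IsDedekindDomain.ramificationIdx'_eq_normalizedFactors_count
      (p := Ideal.span {(a : ℤ)}) (by rw [hmap]; exact hbot) hPP hP0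
    rw [hmap] at h3
    rw [← h3, h2, h1]
  · rw [Multiset.count_eq_zero_of_notMem hP]
    exact zero_le_one

/-- the prime `a` generates a radical ideal in the integers of `M` -/
def RadAt (M : IntermediateField ℚ Qb) (a : ℕ) : Prop :=
  ∀ z ∈ M, IsIntegral ℤ z → ∀ k : ℕ, IsIntegral ℤ (z ^ k / (a : Qb)) → IsIntegral ℤ (z / (a : Qb))

lemma radAt_of_not_dvd (M : IntermediateField ℚ Qb) [NumberField M] (a : ℕ) (ha : a.Prime)
    (h : ¬ (a : ℤ) ∣ discr M) : RadAt M a := by
  intro z hz hzint k hk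
  have ha0 : (a : Qb) ≠ 0 := by exact_mod_cast ha.ne_zero
  have hzM : IsIntegral ℤ (⟨z, hz⟩ : M) := by
    rwa [← isIntegral_algebraMap_iff (algebraMap M Qb).injective]
  have hmem : z ^ k / (a : Qb) ∈ M := div_mem (pow_mem hz k) (natCast_mem M a)
  have hwM : IsIntegral ℤ (⟨z ^ k / (a : Qb), hmem⟩ : M) := by
    rwa [← isIntegral_algebraMap_iff (algebraMap M Qb).injective]
  let zO : 𝓞 M := ⟨⟨z, hz⟩, hzM⟩
  let wO : 𝓞 M := ⟨⟨z ^ k / (a : Qb), hmem⟩, hwM⟩
  have e : (a : 𝓞 M) * wO = zO ^ k := by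
    apply RingOfIntegers.coe_injective
    apply Subtype.ext
    show (a : Qb) * (z ^ k / (a : Qb)) = z ^ k
    field_simp
  have hdvd : Ideal.span {(a : 𝓞 M)} ∣ (Ideal.span {zO}) ^ k := by
    rw [Ideal.span_singleton_pow, Ideal.dvd_span_singleton, ← e]
    exact Ideal.mul_mem_right _ _ (Ideal.mem_span_singleton_self _)
  have hrad := (squarefree_span a ha h).isRadical k _ hdvd
  rw [Ideal.dvd_span_singleton, Ideal.mem_span_singleton] at hrad
  obtain ⟨u, hu⟩ := hrad
  have hu' : z = (a : Qb) * ((u : M) : Qb) := by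
    have h1 : ((zO : M) : Qb) = (((a : 𝓞 M) * u : 𝓞 M) : M) := by rw [hu]
    have h2 : ((zO : M) : Qb) = z := rfl
    have h3 : ((((a : 𝓞 M) * u : 𝓞 M) : M) : Qb) = (a : Qb) * ((u : M) : Qb) := by
      push_cast
      rfl
    rw [← h2, h1, h3]
  rw [hu', mul_div_cancel_left₀ _ ha0]
  have := u.isIntegral_coe
  exact this.map (algebraMap M Qb).toIntAlgHom

/-- all large primes are radical -/
lemma exists_radAt (M : IntermediateField ℚ Qb) [FiniteDimensional ℚ M] :
    ∃ B : ℕ, ∀ a : ℕ, a.Prime → B < a → RadAt M a := by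
  have hNF : NumberField M :=
    { to_charZero := inferInstance
      to_finiteDimensional := inferInstance }
  refine ⟨(discr M).natAbs, fun a ha hB => radAt_of_not_dvd M a ha fun hdvd => ?_⟩
  have h1 : a ∣ (discr M).natAbs := by
    rwa [← Int.natCast_dvd]
  have h2 : (discr M).natAbs ≠ 0 := Int.natAbs_ne_zero.mpr (discr_ne_zero M)
  exact absurd (Nat.le_of_dvd (Nat.pos_of_ne_zero h2) h1) (by omega)

end Pool.Agent.H58P
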