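import Mathlib
import Pool.Agent.H58P.Rad

set_option autoImplicit false

/-!
# A divisibility property of determinants of conjugates
-/

namespace Pool.Agent.H58P

open IntermediateField Polynomial Module

section

variable (M : IntermediateField ℚ Qb)

lemma alg_isIntegral (x : Qb) : IsIntegral M x :=
  (((AlgebraicClosure.isAlgebraic ℚ).isAlgebraic x).isIntegral).tower_top

/-- expansion of the elements of `M(α)` -/
lemma expansion (a p : ℕ) (hp : 0 < p) (α : Qb) (hα : α ^ p = a) (y : Qb)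
    (hy : y ∈ IntermediateField.adjoin M {α}) :
    ∃ c : Fin p → M, y = ∑ s : Fin p, (c s : Qb) * α ^ (s : ℕ) := by
  have halg : IsAlgebraic M α := (alg_isIntegral M α).isAlgebraic
  have h1 : y ∈ (IntermediateField.adjoin M {α}).toSubalgebra := hy
  rw [adjoin_simple_toSubalgebra_of_isAlgebraic halg, Algebra.adjoin_singleton_eq_range_aeval] at h1
  obtain ⟨q, hq⟩ := h1
  have hq' : aeval α q = y := hq
  have hmon : (X ^ p - C (a : M)).Monic := monic_X_pow_sub_C _ hp.ne'
  have hdeg : (X ^ p - C (a : M)).natDegree = p := natDegree_X_pow_sub_C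
  have hne : (X ^ p - C (a : M)) ≠ 1 := by
    intro h
    rw [h, natDegree_one] at hdeg
    omega
  have hroot : aeval α (X ^ p - C (a : M)) = 0 := by
    simp [hα]
  have hlt := natDegree_modByMonic_lt q hmon hne
  rw [hdeg] at hlt
  rw [← aeval_modByMonic_eq_self_of_root hroot, aeval_eq_sum_range' hlt, Finset.sum_range] at hq'
  refine ⟨fun s => (q %ₘ (X ^ p - C (a : M))).coeff s, ?_⟩
  rw [← hq']
  apply Finset.sum_congr rfl
  intro s _
  rw [Algebra.smul_def]
  rfl

instance instAlgM : Algebra.IsAlgebraic M Qb := ⟨fun x => (alg_isIntegral M x).isAlgebraic⟩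

/-- conjugation of the root `α` -/
lemma exists_conj (a p : ℕ) (hp : 0 < p) (α β : Qb) (hα : α ^ p = a) (hβ : β ^ p = a)
    (hirr : Irreducible (X ^ p - C (a : M))) : ∃ σ : Qb ≃ₐ[M] Qb, σ α = β := by
  have hcl : IsAlgClosure M Qb := ⟨inferInstance, inferInstance⟩
  have hn : Normal M Qb := IsAlgClosure.normal M Qb
  have hmon : (X ^ p - C (a : M)).Monic := monic_X_pow_sub_C _ hp.ne'
  have h1 : minpoly M α = X ^ p - C (a : M) :=
    (minpoly.eq_of_irreducible_of_monic hirr (by simp [hα]) hmon).symm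
  have h2 : minpoly M β = X ^ p - C (a : M) :=
    (minpoly.eq_of_irreducible_of_monic hirr (by simp [hβ]) hmon).symm
  obtain ⟨σ, hσ⟩ := (Normal.minpoly_eq_iff_mem_orbit Qb).mp (h2.trans h1.symm)
  exact ⟨σ, hσ⟩

/-- in `M(α)` there is no intermediate field -/
lemma mem_adjoin_of_notMem (a p : ℕ) (hp : p.Prime) (α : Qb) (hα : α ^ p = a)
    (hirr : Irreducible (X ^ p - C (a : M))) (x : Qb)
    (hx : x ∈ IntermediateField.adjoin M {α}) (hxM : x ∉ M) :
    α ∈ IntermediateField.adjoin M {x} ∧ (minpoly M x).natDegree = p := by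
  have hmon : (X ^ p - C (a : M)).Monic := monic_X_pow_sub_C _ hp.ne_zero
  have h1 : minpoly M α = X ^ p - C (a : M) :=
    (minpoly.eq_of_irreducible_of_monic hirr (by simp [hα]) hmon).symm
  have hfa : finrank M (IntermediateField.adjoin M {α}) = p := by
    rw [IntermediateField.adjoin.finrank (alg_isIntegral M α), h1, natDegree_X_pow_sub_C]
  have hle : IntermediateField.adjoin M {x} ≤ IntermediateField.adjoin M {α} :=
    adjoin_simple_le_iff.mpr hx
  have hdvd := IntermediateField.finrank_dvd_of_le_right hle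
  rw [hfa] at hdvd
  have hfx : finrank M (IntermediateField.adjoin M {x}) = p := by
    rcases (Nat.dvd_prime hp).mp hdvd with h | h
    · exfalso
      rw [IntermediateField.finrank_eq_one_iff, adjoin_simple_eq_bot_iff,
        IntermediateField.mem_bot] at h
      obtain ⟨y, hy⟩ := h
      apply hxM
      rw [← hy]
      exact y.2
    · exact h
  have hfd : FiniteDimensional M (IntermediateField.adjoin M {α}) :=
    IntermediateField.adjoin.finiteDimensional (alg_isIntegral M α)
  have heq : IntermediateField.adjoin M {x} = IntermediateField.adjoin M {α} :=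
    IntermediateField.eq_of_le_of_finrank_eq hle (by rw [hfx, hfa])
  refine ⟨heq ▸ IntermediateField.mem_adjoin_simple_self M α, ?_⟩
  rw [← IntermediateField.adjoin.finrank (alg_isIntegral M x), hfx]

end

lemma det_integral {n : Type*} [Fintype n] [DecidableEq n] (A : Matrix n n Qb)
    (h : ∀ i j, IsIntegral ℤ (A i j)) : IsIntegral ℤ A.det := by
  rw [Matrix.det_apply']
  apply IsIntegral.sum
  intro σ _
  apply IsIntegral.mul
  · exact isIntegral_algebraMap (R := ℤ) (A := Qb) (x := ((Equiv.Perm.sign σ : ℤˣ) : ℤ))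
  · exact IsIntegral.prod _ fun i _ => h _ _

lemma zeta_sum (p : ℕ) (ζ : Qb) (hζ : IsPrimitiveRoot ζ p) (n : ℕ) :
    ∑ j : Fin p, (ζ ^ n) ^ (j : ℕ) = if p ∣ n then (p : Qb) else 0 := by
  rw [← Finset.sum_range (fun j => (ζ ^ n) ^ j)]
  split_ifs with h
  · rw [(hζ.pow_eq_one_iff_dvd n).mpr h]
    simp
  · have h1 := geom_sum_mul (ζ ^ n) p
    rw [← pow_mul, mul_comm n p, pow_mul, hζ.pow_eq_one, one_pow, sub_self] at h1
    rcases mul_eq_zero.mp h1 with h2 | h2
    · exact h2
    · exact absurd ((hζ.pow_eq_one_iff_dvd n).mp (sub_eq_zero.mp h2)) h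

section

variable (M : IntermediateField ℚ Qb) (a p : ℕ) (ha : a.Prime) (hp : p.Prime)
  (hrad : RadAt M a) (α ζ : Qb) (hα : α ^ p = a) (hζ : IsPrimitiveRoot ζ p)
  (σ : Fin p → (Qb ≃ₐ[M] Qb)) (hσ : ∀ j, σ j α = ζ ^ (j : ℕ) * α)

include ha hp hrad hα hζ hσ in
/-- the coefficients of an integral element -/
lemma coeff_integral (y : Qb) (hyint : IsIntegral ℤ y) (c : Fin p → M)
    (hc : y = ∑ s : Fin p, (c s : Qb) * α ^ (s : ℕ)) (s : Fin p) :
    IsIntegral ℤ ((p : Qb) * (c s : Qb)) := by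
  have ha0 : (a : Qb) ≠ 0 := by exact_mod_cast ha.ne_zero
  have hαint : IsIntegral ℤ α := by
    refine IsIntegral.of_pow hp.pos ?_
    rw [hα]
    exact isIntegral_algebraMap (R := ℤ) (A := Qb) (x := (a : ℤ)) |> fun h => by simpa using h
  have hζint : IsIntegral ℤ ζ := hζ.isIntegral hp.pos
  have hσy : ∀ j, σ j y = ∑ t : Fin p, (c t : Qb) * (ζ ^ (j : ℕ) * α) ^ (t : ℕ) := by
    intro j
    rw [hc, map_sum]
    apply Finset.sum_congr rfl
    intro t _
    rw [map_mul, map_pow, hσ]
    congr 1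
    exact (σ j).commutes (c t)
  have key : (p : Qb) * (c s : Qb) * α ^ (s : ℕ) =
      ∑ j : Fin p, (ζ ^ (p - (s : ℕ))) ^ (j : ℕ) * σ j y := by
    have h1 : ∀ j : Fin p, (ζ ^ (p - (s : ℕ))) ^ (j : ℕ) * σ j y =
        ∑ t : Fin p, (c t : Qb) * α ^ (t : ℕ) * (ζ ^ (p - (s : ℕ) + t)) ^ (j : ℕ) := by
      intro j
      rw [hσy, Finset.mul_sum]
      apply Finset.sum_congr rfl
      intro t _
      rw [mul_pow, pow_add, mul_pow, ← pow_mul ζ (j : ℕ) t, ← pow_mul ζ (t : ℕ) j, mul_comm (j : ℕ) t]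
      ring
    rw [Finset.sum_congr rfl fun j _ => h1 j, Finset.sum_comm]
    have h2 : ∀ t : Fin p, ∑ j : Fin p, (c t : Qb) * α ^ (t : ℕ) *
        (ζ ^ (p - (s : ℕ) + t)) ^ (j : ℕ) = if t = s then (p : Qb) * (c s : Qb) * α ^ (s : ℕ) else 0 := by
      intro t
      rw [← Finset.mul_sum, zeta_sum p ζ hζ]
      have hs := s.2
      have ht := t.2
      have hiff : p ∣ p - (s : ℕ) + t ↔ t = s := by
        constructor
        · rintro ⟨k, hk⟩
          have hk1 : k = 1 := by
            have h3 : 0 < p * k := by omega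
            have h4 : p * k < p * 2 := by omega
            have h5 : 0 < k := Nat.pos_of_mul_pos_left h3 |> fun h => by
              rcases Nat.eq_zero_or_pos k with h0 | h0
              · rw [h0] at h3; omega
              · exact h0
            have h6 : k < 2 := Nat.lt_of_mul_lt_mul_left h4
            omega
          rw [hk1] at hk
          apply Fin.ext
          omega
        · rintro rfl
          refine ⟨1, by omega⟩
      by_cases h : t = s
      · rw [if_pos (hiff.mpr h), if_pos h, h]; ring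
      · rw [if_neg (fun h' => h (hiff.mp h')), if_neg h, mul_zero]
    rw [Finset.sum_congr rfl fun t _ => h2 t, Finset.sum_ite_eq' Finset.univ s, if_pos (Finset.mem_univ _)]
  have hint1 : IsIntegral ℤ ((p : Qb) * (c s : Qb) * α ^ (s : ℕ)) := by
    rw [key]
    apply IsIntegral.sum
    intro j _
    apply IsIntegral.mul
    · exact (hζint.pow _).pow _
    · exact hyint.map ((σ j : Qb →+* Qb).toIntAlgHom)
  have heM : (p : Qb) * (c s : Qb) ∈ M :=
    mul_mem (IntermediateField.natCast_mem M p) (c s).2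
  set e : Qb := (p : Qb) * (c s : Qb) with he
  clear_value e
  have hw1 : e * a = (e * α ^ (s : ℕ)) * α ^ (p - (s : ℕ)) := by
    rw [mul_assoc, ← pow_add, Nat.add_sub_cancel' s.2.le, hα]
  have hwM : e * a ∈ M := mul_mem heM (IntermediateField.natCast_mem M a)
  have hwint : IsIntegral ℤ (e * a) := by
    rw [hw1]
    exact hint1.mul (hαint.pow _)
  have hwp : IsIntegral ℤ ((e * a) ^ p / (a : Qb)) := by
    have h1 : (e * a) ^ p / (a : Qb) = (e * α ^ (s : ℕ)) ^ p * (a : Qb) ^ (p - 1 - (s : ℕ)) := by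
      have h2 : (e * α ^ (s : ℕ)) ^ p = e ^ p * (a : Qb) ^ (s : ℕ) := by
        rw [mul_pow, ← pow_mul, mul_comm (s : ℕ) p, pow_mul, hα]
      rw [h2, div_eq_iff ha0, mul_pow, mul_assoc, mul_assoc, ← pow_succ, ← pow_add]
      congr 2
      have := s.2
      omega
    rw [h1]
    apply IsIntegral.mul (hint1.pow _)
    apply IsIntegral.pow
    exact isIntegral_algebraMap (R := ℤ) (A := Qb) (x := (a : ℤ)) |> fun h => by simpa using h
  have := hrad (e * a) hwM hwint p hwp
  rwa [mul_div_cancel_right₀ _ ha0] at this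

include ha hp hrad hα hζ hσ in
theorem det_sq_div (hap : a ≠ p) (y : Fin p → Qb) (hy : ∀ k, y k ∈ IntermediateField.adjoin M {α})
    (hyint : ∀ k, IsIntegral ℤ (y k)) :
    IsIntegral ℤ ((Matrix.of fun j k => σ j (y k)).det ^ 2 / (a : Qb) ^ (p - 1)) := by
  have ha0 : (a : Qb) ≠ 0 := by exact_mod_cast ha.ne_zero
  have hζint : IsIntegral ℤ ζ := hζ.isIntegral hp.pos
  choose c hc using fun k => expansion M a p hp.pos α hα (y k) (hy k)
  set Z : Matrix (Fin p) (Fin p) Qb := Matrix.of fun j s => (ζ ^ (j : ℕ)) ^ (s : ℕ) with hZ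
  set Cm : Matrix (Fin p) (Fin p) Qb := Matrix.of fun s k => (c k s : Qb) with hCm
  set D : Matrix (Fin p) (Fin p) Qb := Matrix.diagonal fun s => α ^ (s : ℕ) with hD
  set Y : Matrix (Fin p) (Fin p) Qb := Matrix.of fun j k => σ j (y k) with hY
  have hfac : Y = Z * D * Cm := by
    ext j k
    rw [Matrix.mul_apply]
    show σ j (y k) = _
    rw [hc k, map_sum]
    apply Finset.sum_congr rfl
    intro t _
    rw [map_mul, map_pow, hσ, hD, Matrix.mul_diagonal]
    have h1 : σ j (c k t : Qb) = c k t := (σ j).commutes (c k t)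
    rw [h1]
    show _ = (ζ ^ (j : ℕ)) ^ (t : ℕ) * α ^ (t : ℕ) * (c k t : Qb)
    rw [mul_pow]
    ring
  have hdetD : D.det ^ 2 = (a : Qb) ^ (p - 1) := by
    rw [hD, Matrix.det_diagonal, Finset.prod_pow_eq_pow_sum, ← pow_mul, ← hα, ← pow_mul]
    congr 1
    rw [← Finset.sum_range (fun i => i), Finset.sum_range_id_mul_two]
  set V : Qb := Z.det ^ 2 * Cm.det ^ 2 with hV
  have hYV : Y.det ^ 2 = (a : Qb) ^ (p - 1) * V := by
    rw [hfac, Matrix.det_mul, Matrix.det_mul, mul_pow, mul_pow, hdetD, hV]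
    ring
  rw [hYV, mul_div_cancel_left₀ _ (pow_ne_zero _ ha0)]
  have hint1 : IsIntegral ℤ ((a : Qb) ^ (p - 1) * V) := by
    rw [← hYV]
    apply IsIntegral.pow
    apply det_integral
    intro j k
    exact (hyint k).map ((σ j : Qb →+* Qb).toIntAlgHom)
  have hint2 : IsIntegral ℤ (((p : Qb) ^ p) ^ 2 * V) := by
    have h1 : ((p : Qb) • Cm).det = (p : Qb) ^ p * Cm.det := by
      rw [Matrix.det_smul, Fintype.card_fin]
    have h2 : ((p : Qb) ^ p) ^ 2 * V = Z.det ^ 2 * ((p : Qb) • Cm).det ^ 2 := by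
      rw [h1, hV]; ring
    rw [h2]
    apply IsIntegral.mul
    · apply IsIntegral.pow
      apply det_integral
      intro i j
      exact (hζint.pow _).pow _
    · apply IsIntegral.pow
      apply det_integral
      intro s k
      exact coeff_integral M a p ha hp hrad α ζ hα hζ σ hσ (y k) (hyint k) (c k) (hc k) s
  have hcop : IsCoprime ((a : ℤ) ^ (p - 1)) (((p : ℤ) ^ p) ^ 2) := by
    apply IsCoprime.pow
    apply IsCoprime.pow_right
    exact Nat.isCoprime_iff_coprime.mpr ((Nat.coprime_primes ha hp).mpr hap)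
  obtain ⟨u, v, huv⟩ := hcop
  have huv' : (u : Qb) * (a : Qb) ^ (p - 1) + (v : Qb) * ((p : Qb) ^ p) ^ 2 = 1 := by
    have := congrArg (fun z : ℤ => (z : Qb)) huv
    push_cast at this
    exact this
  have h3 : V = (u : Qb) * ((a : Qb) ^ (p - 1) * V) + (v : Qb) * (((p : Qb) ^ p) ^ 2 * V) := by
    linear_combination (-V) * huv'
  rw [h3]
  apply IsIntegral.add
  · exact (isIntegral_algebraMap (R := ℤ) (A := Qb) (x := u)).mul hint1
  · exact (isIntegral_algebraMap (R := ℤ) (A := Qb) (x := v)).mul hint2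

end

end Pool.Agent.H58P
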