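import Mathlib
import Pool.Agent.H58P.Loc

set_option autoImplicit false

/-!
# No new periodic points in a very ramified extension of prime degree
-/

namespace Pool.Agent.H58P

open IntermediateField Polynomial Module

/-- periodic points of a polynomial -/
def IsPer {M : IntermediateField ℚ Qb} (g : M[X]) (z : Qb) : Prop :=
  ∃ n : ℕ, 0 < n ∧ (fun x : Qb => aeval x g)^[n] z = z

lemma IsPer.image {M : IntermediateField ℚ Qb} {g : M[X]} {z : Qb} (h : IsPer g z) :
    IsPer g (aeval z g) := by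
  obtain ⟨n, hn, hz⟩ := h
  refine ⟨n, hn, ?_⟩
  have h1 : (fun x : Qb => aeval x g)^[n] (aeval z g) = (fun x : Qb => aeval x g)^[n + 1] z := by
    rw [Function.iterate_succ_apply]
  rw [h1, Function.iterate_succ_apply', hz]

lemma growth (m k : ℕ) (hm : 2 ≤ m) (hk : 0 < k) :
    2 ^ m * (k / m + 1) ^ (3 * m) ≤ (k + 1) ^ (3 * m) := by
  have h1 : k / m ≤ k / 2 := Nat.div_le_div_left hm (by norm_num)
  have h2 : 2 * (k / m + 1) ^ 3 ≤ (k + 1) ^ 3 := by
    set q := k / m with hq
    have h3 : 2 * q ≤ k := by omega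
    rcases Nat.eq_zero_or_pos q with h0 | h0
    · rw [h0]
      calc 2 * (0 + 1) ^ 3 ≤ (1 + 1) ^ 3 := by norm_num
        _ ≤ (k + 1) ^ 3 := Nat.pow_le_pow_left (by omega) 3
    · calc 2 * (q + 1) ^ 3 ≤ (2 * q + 1) ^ 3 := by nlinarith [sq_nonneg (q : ℕ), mul_pos h0 h0]
        _ ≤ (k + 1) ^ 3 := Nat.pow_le_pow_left (by omega) 3
  calc 2 ^ m * (k / m + 1) ^ (3 * m) = (2 * (k / m + 1) ^ 3) ^ m := by
        rw [mul_pow, ← pow_mul]
    _ ≤ ((k + 1) ^ 3) ^ m := Nat.pow_le_pow_left h2 m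
    _ = (k + 1) ^ (3 * m) := by rw [← pow_mul]

/-- the dynamical basis -/
lemma basis (M : IntermediateField ℚ Qb) (g : M[X]) (hg : g.Monic) (hdeg : 2 ≤ g.natDegree)
    (D : ℕ) (B : ℝ)
    (hper : ∀ z : Qb, IsPer g z → IsIntegral ℤ ((D : Qb) * z) ∧ ∀ φ : Qb →+* ℂ, ‖φ z‖ ≤ B)
    (k : ℕ) : ∃ (P : M[X]) (s : ℕ), P.Monic ∧ P.natDegree = k ∧
      2 ^ s ≤ (k + 1) ^ (3 * g.natDegree) ∧
      ∀ z : Qb, IsPer g z → IsIntegral ℤ ((D : Qb) ^ s * aeval z P) ∧
        ∀ φ : Qb →+* ℂ, ‖φ (aeval z P)‖ ≤ B ^ s := by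
  induction k using Nat.strong_induction_on with
  | _ k ih =>
    set m := g.natDegree with hm
    rcases Nat.eq_zero_or_pos k with h0 | hk
    · subst h0
      refine ⟨1, 0, monic_one, natDegree_one, by simp, fun z _ => ⟨?_, fun φ => ?_⟩⟩
      · simpa using isIntegral_one
      · simp
    · have hlt : k / m < k := Nat.div_lt_self hk (by omega)
      obtain ⟨P, s, hP, hPdeg, hs, hz⟩ := ih (k / m) hlt
      have hgm : g.natDegree ≠ 0 := by omega
      have hcomp : (P.comp g).Monic := hP.comp hg hgm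
      refine ⟨X ^ (k % m) * P.comp g, k % m + s, (monic_X_pow _).mul hcomp, ?_, ?_, ?_⟩
      · rw [(monic_X_pow _).natDegree_mul hcomp, natDegree_X_pow, natDegree_comp, hPdeg, ← hm,
          mul_comm]
        exact Nat.mod_add_div k m
      · calc 2 ^ (k % m + s) = 2 ^ (k % m) * 2 ^ s := pow_add _ _ _
          _ ≤ 2 ^ m * (k / m + 1) ^ (3 * m) :=
              Nat.mul_le_mul (Nat.pow_le_pow_right (by norm_num) (Nat.mod_lt k (by omega)).le) hs
          _ ≤ (k + 1) ^ (3 * m) := growth m k hdeg hk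
      · intro z hpz
        obtain ⟨h1, h2⟩ := hper z hpz
        obtain ⟨h3, h4⟩ := hz _ hpz.image
        have e : aeval z (X ^ (k % m) * P.comp g) = z ^ (k % m) * aeval (aeval z g) P := by
          rw [map_mul, map_pow, aeval_X, aeval_comp]
        rw [e]
        constructor
        · have : (D : Qb) ^ (k % m + s) * (z ^ (k % m) * aeval (aeval z g) P) =
              ((D : Qb) * z) ^ (k % m) * ((D : Qb) ^ s * aeval (aeval z g) P) := by
            rw [pow_add, mul_pow]; ring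
          rw [this]
          exact (h1.pow _).mul h3
        · intro φ
          rw [map_mul, map_pow, norm_mul, norm_pow, pow_add]
          exact mul_le_mul (pow_le_pow_left₀ (norm_nonneg _) (h2 φ) _) (h4 φ) (norm_nonneg _)
            (pow_nonneg ((norm_nonneg _).trans (h2 φ)) _)

lemma norm_det_le {n : Type*} [Fintype n] [DecidableEq n] (A : Matrix n n ℂ) (R : ℝ)
    (h : ∀ i j, ‖A i j‖ ≤ R) :
    ‖A.det‖ ≤ (Fintype.card n).factorial * R ^ Fintype.card n := by
  rw [Matrix.det_apply']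
  calc ‖∑ σ : Equiv.Perm n, ((Equiv.Perm.sign σ : ℤ) : ℂ) * ∏ i, A (σ i) i‖
      ≤ ∑ σ : Equiv.Perm n, R ^ Fintype.card n := by
        apply norm_sum_le_of_le
        intro σ _
        rw [norm_mul, norm_prod]
        have h1 : ‖((Equiv.Perm.sign σ : ℤ) : ℂ)‖ = 1 := by
          rcases Int.units_eq_one_or (Equiv.Perm.sign σ) with h | h <;> simp [h]
        rw [h1, one_mul]
        calc ∏ i, ‖A (σ i) i‖ ≤ ∏ _i : n, R :=
              Finset.prod_le_prod (fun i _ => norm_nonneg _) fun i _ => h _ _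
          _ = R ^ Fintype.card n := by rw [Finset.prod_const, Finset.card_univ]
    _ = _ := by
        rw [Finset.sum_const, Finset.card_univ, Fintype.card_perm, nsmul_eq_mul]

theorem no_periodic (g : Qb[X]) (hg : g.Monic) (hdeg : 2 ≤ g.natDegree) :
    ∃ E : ℕ, ∀ (M : IntermediateField ℚ Qb) (_ : ∀ i, g.coeff i ∈ M) (a p : ℕ) (_ : a.Prime)
      (_ : p.Prime) (_ : RadAt M a) (α : Qb) (_ : α ^ p = a)
      (_ : Irreducible (X ^ p - C (a : M))) (_ : p ^ E < a) (x : Qb)
      (_ : x ∈ IntermediateField.adjoin M {α})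
      (_ : ∃ n : ℕ, 0 < n ∧ (fun y : Qb => g.eval y)^[n] x = x), x ∈ M := by
  obtain ⟨D, β, hD, hβ0, hint, hβ⟩ := coeff_bounds g
  set m := g.natDegree with hm
  set B : ℝ := 1 + m * β with hB
  have hB1 : 1 ≤ B := by
    have : 0 ≤ (m : ℝ) * β := by positivity
    linarith
  obtain ⟨e, he⟩ : ∃ e : ℕ, (D : ℝ) * B < 2 ^ e := pow_unbounded_of_one_lt _ (by norm_num)
  refine ⟨4 * (1 + 3 * m * e), ?_⟩
  intro M hgM a p ha hp hrad α hα hirr hE x hx hper
  by_contra hxM
  -- lift the polynomial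
  obtain ⟨g', hg'⟩ : ∃ g' : M[X], g'.map (algebraMap M Qb) = g := by
    rw [← mem_lifts, lifts_iff_coeff_lifts]
    intro n
    exact ⟨⟨g.coeff n, hgM n⟩, rfl⟩
  have hinj : Function.Injective (algebraMap M Qb) := (algebraMap M Qb).injective
  have hmon' : g'.Monic := by
    have : (g'.map (algebraMap M Qb)).Monic := by rw [hg']; exact hg
    exact monic_of_injective hinj this
  have hdeg' : g'.natDegree = m := by
    rw [hm, ← hg', natDegree_map]
  have hev : ∀ z : Qb, aeval z g' = g.eval z := by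
    intro z
    rw [← hg', eval_map_algebraMap]
  have hfun : (fun y : Qb => aeval y g') = fun y : Qb => g.eval y := funext hev
  have hperbd : ∀ z : Qb, IsPer g' z →
      IsIntegral ℤ ((D : Qb) * z) ∧ ∀ φ : Qb →+* ℂ, ‖φ z‖ ≤ B := by
    rintro z ⟨n, hn, hz⟩
    rw [hfun] at hz
    refine ⟨den_of_periodic g hg hdeg D hD hint z n hn hz, fun φ => ?_⟩
    have h1 := norm_le_of_periodic (g.map φ) (hg.map _) (by rw [natDegree_map]; exact hdeg) β hβ0
      (fun i => by rw [coeff_map]; exact hβ φ i) (φ z) n hn (by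
        have h2 : ∀ (k : ℕ) (w : Qb), (fun x => (g.map φ).eval x)^[k] (φ w) =
            φ ((fun x => g.eval x)^[k] w) := by
          intro k
          induction k with
          | zero => intro w; rfl
          | succ k ih =>
            intro w
            rw [Function.iterate_succ_apply, Function.iterate_succ_apply]
            have h3 : (g.map φ).eval (φ w) = φ (g.eval w) := by
              rw [eval_map, eval₂_at_apply]
            show (fun x => (g.map φ).eval x)^[k] ((g.map φ).eval (φ w)) = _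
            rw [h3, ih]
        rw [h2, hz])
    rwa [natDegree_map, ← hm] at h1
  have hxper : IsPer g' x := by
    obtain ⟨n, hn, hz⟩ := hper
    exact ⟨n, hn, by rw [hfun]; exact hz⟩
  -- root of unity and conjugations
  have hp0 : NeZero p := ⟨hp.ne_zero⟩
  have hp0' : NeZero (p : Qb) := ⟨by exact_mod_cast hp.ne_zero⟩
  obtain ⟨ζ, hζ⟩ := HasEnoughRootsOfUnity.exists_primitiveRoot Qb p
  have hex : ∀ j : Fin p, ∃ σ : Qb ≃ₐ[M] Qb, σ α = ζ ^ (j : ℕ) * α := by
    intro j
    apply exists_conj M a p hp.pos α _ hα _ hirr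
    rw [mul_pow, hα, ← pow_mul, mul_comm (j : ℕ) p, pow_mul, hζ.pow_eq_one, one_pow, one_mul]
  choose σ hσ using hex
  have hα0 : α ≠ 0 := by
    intro h0
    rw [h0, zero_pow hp.ne_zero] at hα
    have : (a : Qb) ≠ 0 := by exact_mod_cast ha.ne_zero
    exact this hα.symm
  obtain ⟨hαx, -⟩ := mem_adjoin_of_notMem M a p hp α hα hirr x hx hxM
  have hdist : Function.Injective fun j => σ j x := by
    intro j k hjk
    have hjk' : σ j x = σ k x := hjk
    have h1 : α ∈ (IntermediateField.adjoin M {x}).toSubalgebra := hαx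
    rw [adjoin_simple_toSubalgebra_of_isAlgebraic (alg_isIntegral M x).isAlgebraic,
      Algebra.adjoin_singleton_eq_range_aeval] at h1
    obtain ⟨q, hq⟩ := h1
    have hq' : aeval x q = α := hq
    have h2 : σ j α = σ k α := by
      rw [← hq', ← aeval_algHom_apply, ← aeval_algHom_apply, hjk']
    rw [hσ, hσ] at h2
    have h3 := mul_right_cancel₀ hα0 h2
    exact Fin.ext (hζ.pow_inj j.2 k.2 h3)
  choose P s hPmon hPdeg hs hP using basis M g' hmon' (by rw [hdeg']; exact hdeg) D B hperbd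
  set y : Fin p → Qb := fun k => (D : Qb) ^ (s k) * aeval x (P k) with hy
  have hymem : ∀ k, y k ∈ IntermediateField.adjoin M {α} := by
    intro k
    apply mul_mem
    · exact pow_mem (IntermediateField.natCast_mem _ D) _
    · have h1 : aeval x (P k) =
          ((aeval (⟨x, hx⟩ : IntermediateField.adjoin M {α}) (P k) :
            IntermediateField.adjoin M {α}) : Qb) := by
        have := aeval_algHom_apply (IntermediateField.adjoin M {α}).val
          (⟨x, hx⟩ : IntermediateField.adjoin M {α}) (P k)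
        exact this
      rw [h1]
      exact Subtype.property _
  have hyint : ∀ k, IsIntegral ℤ (y k) := fun k => (hP k x hxper).1
  have hap : a ≠ p := by
    rintro rfl
    have h1 : a ^ 1 ≤ a ^ (4 * (1 + 3 * m * e)) := Nat.pow_le_pow_right ha.pos (by omega)
    rw [pow_one] at h1
    exact absurd hE (not_lt.mpr h1)
  have hdiv := det_sq_div M a p ha hp hrad α ζ hα hζ σ hσ hap y hymem hyint
  set Y : Matrix (Fin p) (Fin p) Qb := Matrix.of fun j k => σ j (y k) with hY
  have hYne : Y.det ≠ 0 := by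
    have h1 : Y = Matrix.of fun j k => (fun k : Fin p => (D : Qb) ^ (s k)) k *
        (Matrix.of fun j (k : Fin p) => ((P k).map (algebraMap M Qb)).eval (σ j x)) j k := by
      ext j k
      show σ j ((D : Qb) ^ (s k) * aeval x (P k)) = (D : Qb) ^ (s k) *
        ((P k).map (algebraMap M Qb)).eval (σ j x)
      rw [map_mul, map_pow, map_natCast, ← aeval_algHom_apply, eval_map_algebraMap]
    rw [h1, Matrix.det_mul_row]
    apply mul_ne_zero
    · rw [Finset.prod_ne_zero_iff]
      intro k _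
      apply pow_ne_zero
      exact_mod_cast hD.ne'
    · have h2 := Matrix.det_eval_matrixOfPolynomials_eq_det_vandermonde (fun j => σ j x)
        (fun k : Fin p => (P k).map (algebraMap M Qb))
        (fun k => by rw [natDegree_map]; exact hPdeg k) (fun k => (hPmon k).map _)
      rw [← h2, Matrix.det_vandermonde_ne_zero_iff]
      exact hdist
  have ha0 : (a : Qb) ≠ 0 := by exact_mod_cast ha.ne_zero
  obtain ⟨φ, hφ⟩ := exists_large_conj _ (div_ne_zero (pow_ne_zero 2 hYne)
    (pow_ne_zero (p - 1) ha0)) hdiv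
  have hR : ∀ j k, ‖(Y.map φ) j k‖ ≤ (p : ℝ) ^ (3 * m * e) := by
    intro j k
    show ‖φ (σ j ((D : Qb) ^ (s k) * aeval x (P k)))‖ ≤ _
    have h1 := (hP k x hxper).2 (φ.comp (σ j : Qb →+* Qb))
    have h1' : ‖φ (σ j (aeval x (P k)))‖ ≤ B ^ (s k) := h1
    rw [map_mul, map_pow, map_natCast, map_mul, map_pow, map_natCast, norm_mul, norm_pow,
      Complex.norm_natCast]
    have h2 : ((2 : ℝ) ^ (s k : ℕ)) ≤ ((k : ℕ) + 1 : ℝ) ^ (3 * m) := by
      have := hs k
      rw [hdeg'] at this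
      exact_mod_cast this
    have h3 : ((k : ℕ) + 1 : ℝ) ≤ p := by
      have := k.2
      exact_mod_cast this
    calc (D : ℝ) ^ (s k : ℕ) * ‖φ (σ j (aeval x (P k)))‖ ≤ (D : ℝ) ^ (s k : ℕ) * B ^ (s k : ℕ) := by
          gcongr
      _ = ((D : ℝ) * B) ^ (s k : ℕ) := by rw [mul_pow]
      _ ≤ (2 ^ e) ^ (s k : ℕ) := pow_le_pow_left₀ (by positivity) he.le _
      _ = (2 ^ (s k : ℕ)) ^ e := by rw [← pow_mul, ← pow_mul, mul_comm]
      _ ≤ (((k : ℕ) + 1 : ℝ) ^ (3 * m)) ^ e := pow_le_pow_left₀ (by positivity) h2 _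
      _ ≤ ((p : ℝ) ^ (3 * m)) ^ e := by gcongr
      _ = (p : ℝ) ^ (3 * m * e) := by rw [← pow_mul]
  have hdet := norm_det_le (Y.map φ) ((p : ℝ) ^ (3 * m * e)) hR
  rw [Fintype.card_fin] at hdet
  have hφdet : φ Y.det = (Y.map φ).det := by
    rw [RingHom.map_det]; rfl
  have hp1 : (1 : ℝ) ≤ p := by exact_mod_cast hp.one_le
  have hdet2 : ‖φ Y.det‖ ≤ (p : ℝ) ^ (p * (1 + 3 * m * e)) := by
    rw [hφdet]
    refine hdet.trans ?_
    have h1 : ((p.factorial : ℕ) : ℝ) ≤ (p : ℝ) ^ p := by exact_mod_cast Nat.factorial_le_pow p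
    calc ((p.factorial : ℕ) : ℝ) * ((p : ℝ) ^ (3 * m * e)) ^ p
        ≤ (p : ℝ) ^ p * ((p : ℝ) ^ (3 * m * e)) ^ p := by gcongr
      _ = (p : ℝ) ^ (p * (1 + 3 * m * e)) := by
          rw [← pow_mul, ← pow_add]; congr 1; ring
  rw [map_div₀, map_pow, map_pow, map_natCast, norm_div, norm_pow, norm_pow,
    Complex.norm_natCast] at hφ
  have hapos : (0 : ℝ) < (a : ℝ) ^ (p - 1) := by
    have : (0 : ℝ) < a := by exact_mod_cast ha.pos
    positivity
  rw [le_div_iff₀ hapos, one_mul] at hφ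
  have h4 : (a : ℝ) ^ (p - 1) ≤ ((p : ℝ) ^ (4 * (1 + 3 * m * e))) ^ (p - 1) := by
    calc (a : ℝ) ^ (p - 1) ≤ ‖φ Y.det‖ ^ 2 := hφ
      _ ≤ ((p : ℝ) ^ (p * (1 + 3 * m * e))) ^ 2 := by gcongr
      _ = (p : ℝ) ^ (2 * p * (1 + 3 * m * e)) := by rw [← pow_mul]; congr 1; ring
      _ ≤ (p : ℝ) ^ (4 * (1 + 3 * m * e) * (p - 1)) := by
          apply pow_le_pow_right₀ hp1
          have h5 : 2 * p ≤ 4 * (p - 1) := by
            have := hp.two_le
            omega
          calc 2 * p * (1 + 3 * m * e) ≤ 4 * (p - 1) * (1 + 3 * m * e) :=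
                Nat.mul_le_mul_right _ h5
            _ = 4 * (1 + 3 * m * e) * (p - 1) := by ring
      _ = _ := by rw [← pow_mul]
  have h6 : (a : ℝ) ≤ (p : ℝ) ^ (4 * (1 + 3 * m * e)) := by
    have hp2 : p - 1 ≠ 0 := by
      have := hp.two_le
      omega
    exact le_of_pow_le_pow_left₀ hp2 (by positivity) h4
  have h7 : ((p ^ (4 * (1 + 3 * m * e)) : ℕ) : ℝ) < a := by exact_mod_cast hE
  push_cast at h7
  linarith

end Pool.Agent.H58P
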