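import Mathlib
import Pool.Agent.H58P.Dyn

set_option autoImplicit false

/-!
# The tower of radical extensions
-/

namespace Pool.Agent.H58P

open IntermediateField Polynomial Module

lemma irreducible_of_radAt (M : IntermediateField ℚ Qb) (a p : ℕ) (ha : a.Prime) (hp : p.Prime)
    (hrad : RadAt M a) : Irreducible (X ^ p - C (a : M)) := by
  apply X_pow_sub_C_irreducible_of_prime hp
  intro b hb
  have ha0 : (a : Qb) ≠ 0 := by exact_mod_cast ha.ne_zero
  have haint : IsIntegral ℤ (a : Qb) := by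
    have := isIntegral_algebraMap (R := ℤ) (A := Qb) (x := (a : ℤ))
    simpa using this
  have hb' : (b : Qb) ^ p = a := by
    have := congrArg (algebraMap M Qb) hb
    rw [map_pow, map_natCast] at this
    exact this
  have hbint : IsIntegral ℤ (b : Qb) := IsIntegral.of_pow hp.pos (by rw [hb']; exact haint)
  have h1 := hrad b b.2 hbint p (by rw [hb', div_self ha0]; exact isIntegral_one)
  have h2 := (h1.pow p).mul (haint.pow (p - 2))
  have h3 : ((b : Qb) / a) ^ p * (a : Qb) ^ (p - 2) = (a : Qb)⁻¹ := by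
    rw [div_pow, hb']
    have h4 : (a : Qb) ^ p = a ^ (p - 2) * a * a := by
      rw [← pow_succ, ← pow_succ]
      congr 1
      have := hp.two_le
      omega
    rw [h4]
    field_simp
  rw [h3] at h2
  have h5 : IsIntegral ℤ ((a : ℚ)⁻¹) := by
    rw [← isIntegral_algebraMap_iff (algebraMap ℚ Qb).injective]
    simpa using h2
  obtain ⟨y, hy⟩ := IsIntegrallyClosed.isIntegral_iff.mp h5
  have haq : (a : ℚ) ≠ 0 := by exact_mod_cast ha.ne_zero
  have h6 : (y : ℚ) * a = 1 := by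
    have : (y : ℚ) = (a : ℚ)⁻¹ := hy
    rw [this, inv_mul_cancel₀ haq]
  have h7 : y * (a : ℤ) = 1 := by exact_mod_cast h6
  have h8 : IsUnit (a : ℤ) := IsUnit.of_mul_eq_one y (by rw [mul_comm]; exact h7)
  have h9 := Int.isUnit_iff.mp h8
  have := ha.two_le
  omega

lemma exists_large (i : ℕ) : ∃ N : ℕ, ∀ p : ℕ, N ≤ p →
    Real.log (2 * (p : ℝ) ^ (i + 2)) / p ≤ 1 / ((i : ℝ) + 1) := by
  have h1 := Real.tendsto_pow_log_div_mul_add_atTop 1 0 1 one_ne_zero
  have h2 : Filter.Tendsto (fun x : ℝ => Real.log 2 * x⁻¹ + (i + 2) * (Real.log x ^ 1 / (1 * x + 0)))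
      Filter.atTop (nhds (Real.log 2 * 0 + (i + 2) * 0)) :=
    (tendsto_inv_atTop_zero.const_mul _).add (h1.const_mul _)
  rw [mul_zero, mul_zero, add_zero] at h2
  have h3 := h2.comp tendsto_natCast_atTop_atTop
  have h4 : ∀ᶠ n : ℕ in Filter.atTop, Real.log 2 * (n : ℝ)⁻¹ +
      (i + 2) * (Real.log (n : ℝ) ^ 1 / (1 * (n : ℝ) + 0)) < 1 / ((i : ℝ) + 1) :=
    h3.eventually_lt_const (by positivity)
  obtain ⟨N, hN⟩ := Filter.eventually_atTop.mp h4
  refine ⟨max N 1, fun p hp => ?_⟩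
  have h5 := hN p (le_trans (le_max_left _ _) hp)
  have hp0 : (0 : ℝ) < p := by
    have : 1 ≤ p := le_trans (le_max_right _ _) hp
    exact_mod_cast this
  refine le_of_eq_of_le ?_ h5.le
  rw [Real.log_mul (by norm_num) (by positivity), Real.log_pow]
  push_cast
  field_simp
  ring

/-- the basic step -/
lemma exists_data (i : ℕ) (M : IntermediateField ℚ Qb) [FiniteDimensional ℚ M] :
    ∃ (p a : ℕ) (α : Qb), p.Prime ∧ a.Prime ∧ i < p ∧ α ^ p = a ∧ p ^ (i + 2) < a ∧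
      Real.log a / p ≤ 1 / ((i : ℝ) + 1) ∧ RadAt M a ∧ Irreducible (X ^ p - C (a : M)) := by
  obtain ⟨B, hB⟩ := exists_radAt M
  obtain ⟨N, hN⟩ := exists_large i
  obtain ⟨p, hp1, hp⟩ := Nat.exists_infinite_primes (max N (max (i + 1) (B + 1)))
  have hpN : N ≤ p := (le_max_left _ _).trans hp1
  have hpi : i + 1 ≤ p := ((le_max_left _ _).trans (le_max_right _ _)).trans hp1
  have hpB : B + 1 ≤ p := ((le_max_right _ _).trans (le_max_right _ _)).trans hp1
  obtain ⟨a, ha, ha1, ha2⟩ := Nat.exists_prime_lt_and_le_two_mul (p ^ (i + 2))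
    (pow_ne_zero _ hp.ne_zero)
  have hpa : p ≤ p ^ (i + 2) := Nat.le_self_pow (by omega) p
  have hrad : RadAt M a := hB a ha (by omega)
  obtain ⟨α, hα⟩ := IsAlgClosed.exists_pow_nat_eq (a : Qb) hp.pos
  refine ⟨p, a, α, hp, ha, by omega, hα, ha1, ?_, hrad, irreducible_of_radAt M a p ha hp hrad⟩
  refine le_trans ?_ (hN p hpN)
  have hp0 : (0 : ℝ) < p := by exact_mod_cast hp.pos
  have ha0 : (0 : ℝ) < a := by exact_mod_cast ha.pos
  have h1 : (a : ℝ) ≤ 2 * (p : ℝ) ^ (i + 2) := by exact_mod_cast ha2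
  gcongr

lemma countable_qb : Countable Qb := by
  have h1 := Algebraic.countable ℚ Qb
  have h2 : {x : Qb | IsAlgebraic ℚ x} = Set.univ := by
    ext x
    simp only [Set.mem_univ, iff_true]
    exact (AlgebraicClosure.isAlgebraic ℚ).isAlgebraic x
  rw [h2] at h1
  exact Set.countable_univ_iff.mp h1

/-- the tower -/
theorem exists_tower : ∃ (K M : ℕ → IntermediateField ℚ Qb) (p a : ℕ → ℕ) (α : ℕ → Qb),
    (∀ i, FiniteDimensional ℚ (K i)) ∧ (∀ i, K (i + 1) = K i ⊔ IntermediateField.adjoin ℚ {α i}) ∧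
    (∀ i, K i ≤ M i) ∧ Monotone M ∧ (∀ x, ∃ i, x ∈ M i) ∧
    ∀ i, (p i).Prime ∧ (a i).Prime ∧ i < p i ∧ (α i) ^ (p i) = a i ∧ (p i) ^ (i + 2) < a i ∧
      Real.log (a i) / (p i) ≤ 1 / ((i : ℝ) + 1) ∧ RadAt (M i) (a i) ∧
      Irreducible (X ^ (p i) - C ((a i : ℕ) : M i)) := by
  have hc := countable_qb
  obtain ⟨e, he⟩ := exists_surjective_nat Qb
  let N : ℕ → IntermediateField ℚ Qb := fun i => IntermediateField.adjoin ℚ (e '' Set.Iio i)
  have hNfd : ∀ i, FiniteDimensional ℚ (N i) := by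
    intro i
    have : Finite (e '' Set.Iio i) := ((Set.finite_Iio i).image e)
    exact IntermediateField.finiteDimensional_adjoin fun y _ => qb_isIntegral y
  have hNmono : Monotone N := by
    intro i j hij
    apply IntermediateField.adjoin.mono
    exact Set.image_mono (Set.Iio_subset_Iio hij)
  let St : Type := {K : IntermediateField ℚ Qb // FiniteDimensional ℚ K}
  have hd : ∀ (i : ℕ) (x : St), ∃ d : ℕ × ℕ × Qb, d.1.Prime ∧ d.2.1.Prime ∧ i < d.1 ∧
      d.2.2 ^ d.1 = d.2.1 ∧ d.1 ^ (i + 2) < d.2.1 ∧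
      Real.log d.2.1 / d.1 ≤ 1 / ((i : ℝ) + 1) ∧ RadAt (x.1 ⊔ N i) d.2.1 ∧
      Irreducible (X ^ d.1 - C ((d.2.1 : ℕ) : ↥(x.1 ⊔ N i))) := by
    rintro i ⟨K, hK⟩
    have := hNfd i
    obtain ⟨p, a, α, h⟩ := exists_data i (K ⊔ N i)
    exact ⟨(p, a, α), h⟩
  choose d hd using hd
  let f : ℕ → St := fun i => Nat.rec (⟨⊥, inferInstance⟩ : St)
    (fun i x => ⟨x.1 ⊔ IntermediateField.adjoin ℚ {(d i x).2.2}, by
      have := x.2
      have : FiniteDimensional ℚ (IntermediateField.adjoin ℚ {(d i x).2.2}) :=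
        IntermediateField.adjoin.finiteDimensional (qb_isIntegral _)
      infer_instance⟩) i
  have hmonoK : Monotone fun i => (f i).1 := monotone_nat_of_le_succ fun i => le_sup_left
  refine ⟨fun i => (f i).1, fun i => (f i).1 ⊔ N i, fun i => (d i (f i)).1,
    fun i => (d i (f i)).2.1, fun i => (d i (f i)).2.2, fun i => (f i).2, fun i => rfl,
    fun i => le_sup_left, ?_, ?_, fun i => hd i (f i)⟩
  · intro i j hij
    exact sup_le_sup (hmonoK hij) (hNmono hij)
  · intro x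
    obtain ⟨n, rfl⟩ := he x
    refine ⟨n + 1, (le_sup_right : N (n + 1) ≤ _) ?_⟩
    exact IntermediateField.subset_adjoin ℚ _ ⟨n, Set.mem_Iio.mpr (Nat.lt_succ_self n), rfl⟩

end Pool.Agent.H58P
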