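import Mathlib
import Pool.Agent.H58P.Ht

set_option autoImplicit false

/-!
# Property (P) for the union of the tower
-/

namespace Pool.Agent.H58P

open Polynomial Module
open Pool.Agent.Helper259.AbsHt
open Pool.Agent.H58W (hev height_lower northcott absLogHeight_pair)

/-- a tower of radical extensions of prime degree, very ramified at each step -/
structure Tower where
  K : ℕ → IntermediateField ℚ Qb
  M : ℕ → IntermediateField ℚ Qb
  p : ℕ → ℕ
  a : ℕ → ℕ
  α : ℕ → Qb
  fd : ∀ i, FiniteDimensional ℚ (K i)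
  succ : ∀ i, K (i + 1) = K i ⊔ IntermediateField.adjoin ℚ {α i}
  le : ∀ i, K i ≤ M i
  mono : Monotone M
  exh : ∀ x, ∃ i, x ∈ M i
  hp : ∀ i, (p i).Prime
  ha : ∀ i, (a i).Prime
  lt : ∀ i, i < p i
  hα : ∀ i, (α i) ^ (p i) = a i
  big : ∀ i, (p i) ^ (i + 2) < a i
  small : ∀ i : ℕ, Real.log (a i) / (p i) ≤ 1 / ((i : ℝ) + 1)
  rad : ∀ i, RadAt (M i) (a i)
  irr : ∀ i, Irreducible (X ^ (p i) - C ((a i : ℕ) : M i))

lemma nonempty_tower : Nonempty Tower := by
  obtain ⟨K, M, p, a, α, h1, h2, h3, h4, h5, h6⟩ := exists_tower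
  exact ⟨⟨K, M, p, a, α, h1, h2, h3, h4, h5, fun i => (h6 i).1, fun i => (h6 i).2.1,
    fun i => (h6 i).2.2.1, fun i => (h6 i).2.2.2.1, fun i => (h6 i).2.2.2.2.1,
    fun i => (h6 i).2.2.2.2.2.1, fun i => (h6 i).2.2.2.2.2.2.1,
    fun i => (h6 i).2.2.2.2.2.2.2⟩⟩

namespace Tower

variable (T : Tower)

lemma monoK : Monotone T.K := monotone_nat_of_le_succ fun i => by
  rw [T.succ]; exact le_sup_left

lemma α_mem (i : ℕ) : T.α i ∈ T.K (i + 1) := by
  rw [T.succ]
  exact (le_sup_right : IntermediateField.adjoin ℚ {T.α i} ≤ _)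
    (IntermediateField.mem_adjoin_simple_self ℚ _)

lemma radK (i : ℕ) : RadAt (T.K i) (T.a i) := fun z hz => T.rad i z (T.le i hz)

lemma irrK (i : ℕ) : Irreducible (X ^ (T.p i) - C ((T.a i : ℕ) : T.K i)) :=
  irreducible_of_radAt _ _ _ (T.ha i) (T.hp i) (T.radK i)

lemma mem_adjoin_iff (M : IntermediateField ℚ Qb) (α x : Qb) :
    x ∈ IntermediateField.adjoin M {α} ↔ x ∈ M ⊔ IntermediateField.adjoin ℚ {α} := by
  rw [← IntermediateField.restrictScalars_adjoin_eq_sup, IntermediateField.mem_restrictScalars]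

/-- elements of the next field which are roots of a polynomial of small degree -/
lemma descend (j : ℕ) (y : Qb) (hy : y ∈ T.K (j + 1)) (f : Qb[X]) (hf : ∀ i, f.coeff i ∈ T.K j)
    (hf0 : f ≠ 0) (hdeg : f.natDegree < T.p j) (hroot : f.eval y = 0) : y ∈ T.K j := by
  by_contra hyK
  rw [T.succ, ← mem_adjoin_iff] at hy
  obtain ⟨-, h1⟩ := mem_adjoin_of_notMem (T.K j) (T.a j) (T.p j) (T.hp j) (T.α j) (T.hα j)
    (T.irrK j) y hy hyK
  obtain ⟨f', hf'⟩ : ∃ f' : (T.K j)[X], f'.map (algebraMap (T.K j) Qb) = f := by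
    rw [← mem_lifts, lifts_iff_coeff_lifts]
    intro n
    exact ⟨⟨f.coeff n, hf n⟩, rfl⟩
  have h2 : f' ≠ 0 := by
    rintro rfl
    rw [Polynomial.map_zero] at hf'
    exact hf0 hf'.symm
  have h3 : aeval y f' = 0 := by
    rw [← eval_map_algebraMap, hf']
    exact hroot
  have h4 := natDegree_le_of_dvd (minpoly.dvd _ _ h3) h2
  have h5 : f'.natDegree = f.natDegree := by rw [← hf', natDegree_map]
  omega

/-- `K_{j+1} ∩ M_j = K_j` -/
lemma inter (j : ℕ) (x : Qb) (hx : x ∈ T.K (j + 1)) (hxM : x ∈ T.M j) : x ∈ T.K j := by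
  by_contra hxK
  rw [T.succ, ← mem_adjoin_iff] at hx
  obtain ⟨h1, -⟩ := mem_adjoin_of_notMem (T.K j) (T.a j) (T.p j) (T.hp j) (T.α j) (T.hα j)
    (T.irrK j) x hx hxK
  rw [mem_adjoin_iff] at h1
  have h2 : T.K j ⊔ IntermediateField.adjoin ℚ {x} ≤ T.M j :=
    sup_le (T.le j) (IntermediateField.adjoin_simple_le_iff.mpr hxM)
  have h3 : T.α j ∈ T.M j := h2 h1
  have h4 : (X ^ (T.p j) - C ((T.a j : ℕ) : T.M j)).IsRoot (⟨T.α j, h3⟩ : T.M j) := by
    rw [IsRoot.def, eval_sub, eval_pow, eval_X, eval_C, sub_eq_zero]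
    apply Subtype.ext
    have := T.hα j
    simpa using this
  have h5 := degree_eq_one_of_irreducible_of_root (T.irr j) h4
  rw [degree_X_pow_sub_C (T.hp j).pos] at h5
  have h6 : T.p j = 1 := by exact_mod_cast h5
  exact (T.hp j).ne_one h6

/-- the union of the tower -/
noncomputable def F : IntermediateField ℚ Qb := ⨆ i, T.K i

lemma mem_F (x : Qb) : x ∈ T.F ↔ ∃ i, x ∈ T.K i := by
  unfold F
  rw [← SetLike.mem_coe, IntermediateField.coe_iSup_of_directed T.monoK.directed_le, Set.mem_iUnion]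
  rfl

lemma exists_level (g : Qb[X]) (N : ℕ → IntermediateField ℚ Qb) (hN : Monotone N)
    (h : ∀ i, ∃ j, g.coeff i ∈ N j) : ∃ s, ∀ j, s ≤ j → ∀ i, g.coeff i ∈ N j := by
  choose l hl using h
  refine ⟨∑ i ∈ Finset.range (g.natDegree + 1), l i, fun j hj i => ?_⟩
  by_cases hi : i ∈ Finset.range (g.natDegree + 1)
  · have h1 : l i ≤ ∑ i ∈ Finset.range (g.natDegree + 1), l i :=
      Finset.single_le_sum (f := l) (fun _ _ => Nat.zero_le _) hi
    exact hN (h1.trans hj) (hl i)
  · have h0 : g.coeff i = 0 := by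
      apply coeff_eq_zero_of_natDegree_lt
      rw [Finset.mem_range] at hi
      omega
    rw [h0]
    exact (N j).zero_mem

lemma northcottK (i : ℕ) (C : ℝ) : {x : Qb | x ∈ T.K i ∧ ht x ≤ C}.Finite := by
  have := T.fd i
  refine (northcott (finrank ℚ (T.K i)) C).subset ?_
  rintro x ⟨hx, hC⟩
  refine ⟨?_, hC⟩
  have e : minpoly ℚ x = minpoly ℚ (⟨x, hx⟩ : T.K i) := by
    rw [← minpoly.algebraMap_eq (algebraMap (T.K i) Qb).injective]
    rfl
  rw [e]
  exact minpoly.natDegree_le _

lemma height_poly (f : Qb[X]) (hdeg : 2 ≤ f.natDegree) : ∃ C : ℝ, ∀ z : Qb,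
    2 * ht z ≤ C + ht (f.eval z) := by
  obtain ⟨C, hC⟩ := height_lower f 1 f.natDegree (by simp) (by omega) isCoprime_one_right
  refine ⟨C, fun z => ?_⟩
  have h1 := hC z 1
  have e1 : hev f f.natDegree z 1 = f.eval z := by
    rw [eval_eq_sum_range]
    unfold hev
    apply Finset.sum_congr rfl
    intro i _
    rw [one_pow, mul_one]
  have e2 : hev 1 f.natDegree z 1 = 1 := by
    unfold hev
    rw [Finset.sum_eq_single 0]
    · simp
    · intro i _ hi
      rw [coeff_one, if_neg hi]
      simp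
    · intro h
      exact absurd (Finset.mem_range.mpr (Nat.succ_pos _)) h
  rw [e1, e2, absLogHeight_pair z 1, absLogHeight_pair _ 1, div_one, div_one] at h1
  have h2 : (2 : ℝ) ≤ f.natDegree := by exact_mod_cast hdeg
  have h3 : 0 ≤ ht z := absLogHeight_nonneg _
  have h4 : 2 * ht z ≤ f.natDegree * ht z := mul_le_mul_of_nonneg_right h2 h3
  exact h4.trans h1

/-- the key finiteness theorem -/
theorem finite_of_subset_image (f : Qb[X]) (hdeg : 2 ≤ f.natDegree) (hf : ∀ i, f.coeff i ∈ T.F)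
    (S : Set Qb) (hSF : ∀ x ∈ S, x ∈ T.F) (hS : ∀ x ∈ S, ∃ y ∈ S, f.eval y = x) : S.Finite := by
  classical
  set m := f.natDegree with hm
  obtain ⟨s₀, hs₀⟩ := exists_level f T.K T.monoK fun i => (T.mem_F _).mp (hf i)
  -- the conjugated monic polynomial
  have hlc : f.leadingCoeff ≠ 0 := by
    rw [leadingCoeff_ne_zero]
    rintro rfl
    simp at hm
    omega
  obtain ⟨l, hl⟩ := IsAlgClosed.exists_pow_nat_eq f.leadingCoeff (show 0 < m - 1 by omega)
  have hl0 : l ≠ 0 := by
    rintro rfl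
    rw [zero_pow (by omega)] at hl
    exact hlc hl.symm
  set g : Qb[X] := C l * f.comp (C l⁻¹ * X) with hg
  have hgeval : ∀ x, g.eval (l * x) = l * f.eval x := by
    intro x
    rw [hg, eval_mul, eval_C, eval_comp, eval_mul, eval_C, eval_X, ← mul_assoc, inv_mul_cancel₀ hl0,
      one_mul]
  have hgcoeff : ∀ n, g.coeff n = l * (f.coeff n * l⁻¹ ^ n) := by
    intro n
    rw [hg, coeff_C_mul, comp_C_mul_X_coeff]
  have hgdeg : g.natDegree = m := by
    rw [hg, natDegree_C_mul hl0, natDegree_comp, natDegree_C_mul_X _ (inv_ne_zero hl0), mul_one]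
  have hgmon : g.Monic := by
    rw [Monic, leadingCoeff, hgdeg, hgcoeff]
    have h1 : f.coeff m = l ^ (m - 1) := by rw [hl]; rfl
    rw [h1, ← mul_assoc, ← pow_succ', inv_pow]
    have h2 : m - 1 + 1 = m := by omega
    rw [h2, mul_inv_cancel₀ (pow_ne_zero _ hl0)]
  obtain ⟨s₁, hs₁⟩ := T.exh l
  obtain ⟨E, hE⟩ := no_periodic g hgmon (by rw [hgdeg]; exact hdeg)
  set s := max (max s₀ s₁) (max E m) with hs
  have hss₀ : s₀ ≤ s := (le_max_left _ _).trans (le_max_left _ _)
  have hss₁ : s₁ ≤ s := (le_max_right _ _).trans (le_max_left _ _)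
  have hsE : E ≤ s := (le_max_left _ _).trans (le_max_right _ _)
  have hsm : m ≤ s := (le_max_right _ _).trans (le_max_right _ _)
  -- preimages stay in the same field
  have hpre : ∀ i, s ≤ i → ∀ x ∈ T.K i, ∀ l', i ≤ l' → ∀ y ∈ T.K l', f.eval y = x → y ∈ T.K i := by
    intro i hi x hx l' hl'
    induction l', hl' using Nat.le_induction with
    | base => intro y hy _; exact hy
    | succ k hk ih =>
      intro y hy hyx
      apply ih y _ hyx
      have hxk : x ∈ T.K k := T.monoK hk hx
      apply T.descend k y hy (f - C x)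
      · intro n
        rw [coeff_sub, coeff_C]
        apply sub_mem (hs₀ k (hss₀.trans (hi.trans hk)) n)
        split_ifs
        · exact hxk
        · exact (T.K k).zero_mem
      · intro h0
        have := natDegree_sub_C (p := f) (a := x)
        rw [h0, natDegree_zero] at this
        omega
      · rw [natDegree_sub_C]
        have := T.lt k
        omega
      · rw [eval_sub, eval_C, hyx, sub_self]
  obtain ⟨Ch, hCh⟩ := height_poly f hdeg
  -- every point of `S` is periodic
  have hper : ∀ x ∈ S, ∃ n : ℕ, 0 < n ∧ (fun y : Qb => f.eval y)^[n] x = x := by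
    intro x hxS
    obtain ⟨i₀, hi₀⟩ := (T.mem_F x).mp (hSF x hxS)
    set i := max s i₀ with hi
    have hxi : x ∈ T.K i := T.monoK (le_max_right _ _) hi₀
    set R := max Ch (ht x) with hR
    set A : Set Qb := {z | z ∈ S ∧ z ∈ T.K i ∧ ht z ≤ R} with hA
    have hAfin : A.Finite := (T.northcottK i R).subset fun z hz => ⟨hz.2.1, hz.2.2⟩
    have hAinv : ∀ z : A, ∃ y : A, f.eval (y : Qb) = z := by
      rintro ⟨z, hzS, hzK, hzR⟩
      obtain ⟨y, hyS, hy⟩ := hS z hzS
      obtain ⟨i₁, hi₁⟩ := (T.mem_F y).mp (hSF y hyS)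
      have hyK : y ∈ T.K i := hpre i (le_max_left _ _) z hzK (max i i₁) (le_max_left _ _) y
        (T.monoK (le_max_right _ _) hi₁) hy
      refine ⟨⟨y, hyS, hyK, ?_⟩, hy⟩
      have h1 := hCh y
      rw [hy] at h1
      have h2 : Ch ≤ R := le_max_left _ _
      linarith
    choose r hr using hAinv
    have hrinj : Function.Injective r := by
      intro u v huv
      apply Subtype.ext
      rw [← hr u, ← hr v, huv]
    have : Finite A := hAfin
    have hxA : x ∈ A := ⟨hxS, hxi, le_max_right _ _⟩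
    obtain ⟨n, hn, hn2⟩ := hrinj.mem_periodicPts (⟨x, hxA⟩ : A)
    refine ⟨n, hn, ?_⟩
    have key : ∀ (k : ℕ) (u : A), (fun y : Qb => f.eval y)^[k] ((r^[k] u : A) : Qb) = u := by
      intro k
      induction k with
      | zero => intro u; rfl
      | succ k ih =>
        intro u
        rw [Function.iterate_succ_apply, Function.iterate_succ_apply' r]
        show (fun y : Qb => f.eval y)^[k] (f.eval ((r (r^[k] u) : A) : Qb)) = u
        rw [hr, ih]
    have h1 := key n ⟨x, hxA⟩
    have h2 : r^[n] ⟨x, hxA⟩ = ⟨x, hxA⟩ := hn2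
    rw [h2] at h1
    exact h1
  -- periodic points lie in `K s`
  have hdown : ∀ j, s ≤ j → ∀ x ∈ T.K j,
      (∃ n : ℕ, 0 < n ∧ (fun y : Qb => f.eval y)^[n] x = x) → x ∈ T.K s := by
    intro j hj
    induction j, hj using Nat.le_induction with
    | base => intro x hx _; exact hx
    | succ k hk ih =>
      intro x hx hxper
      apply ih x _ hxper
      have hlM : l ∈ T.M k := T.mono (hss₁.trans hk) hs₁
      apply T.inter k x hx
      have h1 : l * x ∈ T.M k := by
        apply hE (T.M k) _ (T.a k) (T.p k) (T.ha k) (T.hp k) (T.rad k) (T.α k) (T.hα k) (T.irr k) _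
          (l * x)
        · rw [mem_adjoin_iff]
          apply mul_mem
          · exact (le_sup_left : T.M k ≤ _) hlM
          · rw [T.succ] at hx
            exact (sup_le_sup_right (T.le k) _) hx
        · obtain ⟨n, hn, hn2⟩ := hxper
          refine ⟨n, hn, ?_⟩
          have h2 : ∀ (q : ℕ) (w : Qb), (fun y : Qb => g.eval y)^[q] (l * w) =
              l * (fun y : Qb => f.eval y)^[q] w := by
            intro q
            induction q with
            | zero => intro w; rfl
            | succ q ihq =>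
              intro w
              rw [Function.iterate_succ_apply, Function.iterate_succ_apply]
              show (fun y : Qb => g.eval y)^[q] (g.eval (l * w)) = _
              rw [hgeval, ihq]
          rw [h2, hn2]
        · intro n
          rw [hgcoeff]
          apply mul_mem hlM
          apply mul_mem (T.le k (hs₀ k (hss₀.trans hk) n))
          exact pow_mem (inv_mem hlM) _
        · refine lt_of_le_of_lt ?_ (T.big k)
          exact Nat.pow_le_pow_right (T.hp k).pos (by omega)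
      have h3 : x = l⁻¹ * (l * x) := by
        rw [← mul_assoc, inv_mul_cancel₀ hl0, one_mul]
      rw [h3]
      exact mul_mem (inv_mem hlM) h1
  refine (T.northcottK s Ch).subset ?_
  intro x hxS
  have h1 := hper x hxS
  obtain ⟨i₀, hi₀⟩ := (T.mem_F x).mp (hSF x hxS)
  refine ⟨hdown (max s i₀) (le_max_left _ _) x (T.monoK (le_max_right _ _) hi₀) h1, ?_⟩
  obtain ⟨n, hn, hn2⟩ := h1
  refine periodic_le (fun y : Qb => f.eval y) ht Ch ?_ x n hn hn2
  intro u hu
  have := hCh u
  show ht u < ht (f.eval u)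
  linarith

end Tower

end Pool.Agent.H58P
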